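import Pool.Agent.Helper27.FK.Two
import Pool.Agent.Helper27.FK.St.F

open Finset Filter Topology

namespace Pool.Agent.Helper62.FKF

open Pool.Agent.Helper7.FR Pool.Agent.Helper27.FK

theorem ulim {ι : Type*} (U : Ultrafilter ι) (f : ι → ℝ) {a b : ℝ} (h : ∀ m, a ≤ f m ∧ f m ≤ b) :
    ∃ x : ℝ, Tendsto f U (𝓝 x) := by
  obtain ⟨x, _, hx⟩ := (isCompact_Icc (a := a) (b := b)).ultrafilter_le_nhds (U.map f)
    (by
      rw [le_principal_iff]
      have hall : ∀ᶠ m in (U : Filter ι), f m ∈ Set.Icc a b :=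
        Filter.Eventually.of_forall (fun m => ⟨(h m).1, (h m).2⟩)
      exact hall)
  exact ⟨x, hx⟩

/-- P3L: the limit identity (uses P3K). -/
theorem P3L {n : ℕ} {ι : Type*} (U : Ultrafilter ι) (r θ : ι → Fin n → ℝ) (c : ι → ℝ)
    (hθ : ∀ m i, 0 ≤ θ m i ∧ θ m i < 1)
    (hc : ∀ m (j : ℤ), ∑ i, Int.fract ((j : ℝ) * r m i + θ m i) = c m) :
    ∃ (θ' : Fin n → ℝ) (c' : ℝ), (∀ i, Tendsto (fun m => θ m i) U (𝓝 (θ' i))) ∧
      ∀ h : Fin n → ℝ, (∀ k : Fin n → ℤ, (∀ᶠ m in U, ∃ z : ℤ, ∑ i, (k i : ℝ) * r m i = z) →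
        ∃ z : ℤ, ∑ i, (k i : ℝ) * h i = z) → (∀ i, ∀ z : ℤ, θ' i + h i ≠ z) →
        ∑ i, Int.fract (θ' i + h i) = c' := by
  have h1 : ∀ i, ∃ x : ℝ, Tendsto (fun m => θ m i) U (𝓝 x) := fun i =>
    ulim U (fun m => θ m i) (a := 0) (b := 1) (fun m => ⟨(hθ m i).1, (hθ m i).2.le⟩)
  choose θ' hθ' using h1
  have h2 : ∃ x : ℝ, Tendsto c U (𝓝 x) := by
    refine ulim U c (a := 0) (b := n) (fun m => ?_)
    rw [← hc m 0]
    refine ⟨Finset.sum_nonneg fun i _ => Int.fract_nonneg _, ?_⟩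
    calc ∑ i, Int.fract (((0 : ℤ) : ℝ) * r m i + θ m i) ≤ ∑ i : Fin n, (1 : ℝ) :=
          Finset.sum_le_sum fun i _ => (Int.fract_lt_one _).le
      _ = n := by simp
  obtain ⟨c', hc'⟩ := h2
  refine ⟨θ', c', hθ', ?_⟩
  intro h hrel hni
  -- continuity of the sum of fractional parts
  have hcont : ContinuousAt (fun y : Fin n → ℝ => ∑ i, Int.fract (y i)) (fun i => θ' i + h i) := by
    apply tendsto_finsetSum
    intro i _
    have hf : ContinuousAt (Int.fract : ℝ → ℝ) (θ' i + h i) := by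
      apply continuousAt_fract
      intro hz
      exact hni i ⌊θ' i + h i⌋ hz
    exact Tendsto.comp hf (continuous_apply i).continuousAt
  rw [Metric.continuousAt_iff] at hcont
  refine eq_of_forall_dist_le fun ε hε => ?_
  obtain ⟨δ, hδ, hd⟩ := hcont (ε / 2) (by positivity)
  have e1 := Pool.Agent.Helper27.FK.St.P3K U r h hrel (δ := δ / 2) (by positivity)
  have e2 : ∀ᶠ m in (U : Filter ι), ∀ i, dist (θ m i) (θ' i) < δ / 2 := by
    rw [Filter.eventually_all]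
    intro i
    exact (Metric.tendsto_nhds.1 (hθ' i)) (δ / 2) (by positivity)
  have e3 : ∀ᶠ m in (U : Filter ι), dist (c m) c' < ε / 2 :=
    (Metric.tendsto_nhds.1 hc') (ε / 2) (by positivity)
  obtain ⟨m, ⟨j, hj⟩, h2', h3'⟩ := (e1.and (e2.and e3)).exists
  choose z hz using hj
  have h4 : dist (fun i => (j : ℝ) * r m i + θ m i + z i) (fun i => θ' i + h i) < δ := by
    rw [dist_pi_lt_iff hδ]
    intro i
    have ha := hz i
    have hb := h2' i
    rw [Real.dist_eq] at hb ⊢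
    rw [abs_lt] at ha hb ⊢
    constructor <;> linarith [ha.1, ha.2, hb.1, hb.2]
  have h5 := hd h4
  have h6 : (∑ i, Int.fract ((j : ℝ) * r m i + θ m i + z i)) = c m := by
    rw [← hc m j]
    exact Finset.sum_congr rfl fun i _ => Int.fract_add_intCast _ _
  simp only [h6] at h5
  calc dist (∑ i, Int.fract (θ' i + h i)) c'
      ≤ dist (∑ i, Int.fract (θ' i + h i)) (c m) + dist (c m) c' := dist_triangle _ _ _
    _ ≤ ε := by rw [dist_comm _ (c m)]; linarith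

end Pool.Agent.Helper62.FKF
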